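import Pool.Agent.V8H45.RL.Arith

/-!
The law `(a ∨ c) ∧ b = a ∨ (c ∧ b)` for `a ≤ b`, if `b` is an initial segment in which `c ∧ b` is
cofinal; here only the case that is needed for the pentagon.
-/

set_option autoImplicit false
set_option linter.unusedSectionVars false

namespace Pool.Agent.V8H45.RL

open FirstOrder FirstOrder.Language FirstOrder.Ring

section

variable {N : Type} [CommSemiring N] [Neg N] [CompatibleRing N]

theorem zero_mem' (K : Language.ring.ElementarySubstructure N) : (0 : N) ∈ K := by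
  have h := K.toSubstructure.fun_mem (zeroFunc : Language.ring.Functions 0) ![] (fun i => i.elim0)
  have h' : Structure.funMap (zeroFunc : Language.ring.Functions 0) (![] : Fin 0 → N) = 0 :=
    CompatibleRing.funMap_zero _
  rw [h'] at h
  exact h

theorem add_mem' (K : Language.ring.ElementarySubstructure N) {x y : N} (hx : x ∈ K)
    (hy : y ∈ K) : x + y ∈ K := by
  have h := K.toSubstructure.fun_mem (addFunc : Language.ring.Functions 2) ![x, y] (by
    intro i
    fin_cases i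
    · exact hx
    · exact hy)
  rw [CompatibleRing.funMap_add] at h
  exact h

variable {M : Type} [CommSemiring M] [Neg M] [CompatibleRing M]

/-- the range of an elementary embedding -/
theorem exists_range (f : M ↪ₑ[Language.ring] N) :
    ∃ K : Language.ring.ElementarySubstructure N, (K : Set N) = Set.range f := by
  refine exists_elementary _ ?_
  intro I _ φ p hp ⟨y, hy⟩
  choose q hq using hp
  have h1 : (φ.iExs (Fin 1)).Realize p := by
    rw [Formula.realize_iExs]; exact ⟨fun _ => y, hy⟩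
  have h2 : (f ∘ q) = p := funext hq
  rw [← h2, f.map_formula, Formula.realize_iExs] at h1
  obtain ⟨z, hz⟩ := h1
  refine ⟨f (z 0), ⟨z 0, rfl⟩, ?_⟩
  rw [← f.map_formula] at hz
  convert hz using 1
  funext i
  rcases i with i | i
  · exact (hq i).symm
  · rw [Subsingleton.elim i 0]; rfl

variable (hN : TA N)
include hN

/-- the intersection of two elementary substructures -/
theorem exists_inter (K K' : Language.ring.ElementarySubstructure N) :
    ∃ K'' : Language.ring.ElementarySubstructure N, (K'' : Set N) = (K : Set N) ∩ K' := by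
  refine exists_elementary _ ?_
  intro I _ φ p hp h
  obtain ⟨y, hy⟩ := exists_least hN φ p h
  obtain ⟨z, hz, hz'⟩ := exists_mem K (leastF φ) p (fun i => (hp i).1) ⟨_, hy⟩
  obtain ⟨w, hw, hw'⟩ := exists_mem K' (leastF φ) p (fun i => (hp i).2) ⟨_, hy⟩
  have hz2 : z = fun _ => z 0 := funext fun i => by rw [Subsingleton.elim i 0]
  have hw2 : w = fun _ => w 0 := funext fun i => by rw [Subsingleton.elim i 0]
  rw [hz2, realize_leastF] at hz'
  rw [hw2, realize_leastF] at hw'
  have heq : z 0 = w 0 := le_antisymm' hN (hz'.2 _ hw'.1) (hw'.2 _ hz'.1)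
  exact ⟨z 0, ⟨hz 0, by rw [heq]; exact hw 0⟩, hz'.1⟩

/-- the elements below elements of the smaller model -/
theorem exists_cofinal (hM : TA M) (f : M ↪ₑ[Language.ring] N) :
    ∃ K : Language.ring.ElementarySubstructure N, (K : Set N) = {x | ∃ m : M, Le x (f m)} := by
  refine exists_elementary _ ?_
  intro I _ φ p hp h
  obtain ⟨R, hR⟩ := exists_range f
  obtain ⟨m, hm, hpm⟩ := exists_bound (R : Set N) (zero_mem' R)
    (fun x hx y hy => add_mem' R hx hy) p (by
      intro i
      obtain ⟨m, hm⟩ := hp i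
      exact ⟨f m, by rw [hR]; exact ⟨m, rfl⟩, hm⟩)
  rw [hR] at hm
  obtain ⟨m0, rfl⟩ := hm
  obtain ⟨B, hB⟩ := exists_coll hM φ m0
  rw [← f.map_formula] at hB
  rw [realize_collF] at hB
  obtain ⟨y, hy, hyB⟩ := hB p hpm h
  exact ⟨y, ⟨B, hyB⟩, hy⟩

/-- the elements that are definable over two elementary substructures -/
theorem exists_join (Ka Kc : Language.ring.ElementarySubstructure N) :
    ∃ K : Language.ring.ElementarySubstructure N, Ka ≤ K ∧ Kc ≤ K ∧
      ∀ β ∈ K, ∃ (I J : Type) (_ : Finite I) (_ : Finite J) (x : I → N) (u : J → N)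
        (θ : Language.ring.Formula (I ⊕ (J ⊕ Fin 1))), (∀ i, x i ∈ Kc) ∧ (∀ j, u j ∈ Ka) ∧
          ∀ y, θ.Realize (Sum.elim x (Sum.elim u (fun _ => y))) ↔ y = β := by
  let A : Set N := {β | ∃ (I J : Type) (_ : Finite I) (_ : Finite J) (x : I → N) (u : J → N)
        (θ : Language.ring.Formula (I ⊕ (J ⊕ Fin 1))), (∀ i, x i ∈ Kc) ∧ (∀ j, u j ∈ Ka) ∧
          ∀ y, θ.Realize (Sum.elim x (Sum.elim u (fun _ => y))) ↔ y = β}
  obtain ⟨K, hK⟩ : ∃ K : Language.ring.ElementarySubstructure N, (K : Set N) = A := by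
    refine exists_elementary _ ?_
    intro I0 _ φ p hp h
    obtain ⟨y, hy⟩ := exists_least hN φ p h
    refine ⟨y, ?_, ((realize_leastF φ p y).1 hy).1⟩
    choose I J hI hJ x u θ hx hu hθ using hp
    let r : ∀ i0 : I0, I i0 ⊕ (J i0 ⊕ Fin 1) →
        ((Σ i, I i) ⊕ ((Σ i, J i) ⊕ Fin 1)) ⊕ I0 := fun i0 =>
      Sum.elim (fun a => Sum.inl (Sum.inl ⟨i0, a⟩))
        (Sum.elim (fun b => Sum.inl (Sum.inr (Sum.inl ⟨i0, b⟩))) (fun _ => Sum.inr i0))
    let s : I0 ⊕ Fin 1 → ((Σ i, I i) ⊕ ((Σ i, J i) ⊕ Fin 1)) ⊕ I0 :=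
      Sum.elim Sum.inr (fun k => Sum.inl (Sum.inr (Sum.inr k)))
    refine ⟨Σ i, I i, Σ i, J i, inferInstance, inferInstance, fun a => x a.1 a.2,
      fun b => u b.1 b.2,
      Formula.iExs I0 ((Formula.iInf fun i0 => (θ i0).relabel (r i0)) ⊓ (leastF φ).relabel s),
      fun a => hx a.1 a.2, fun b => hu b.1 b.2, ?_⟩
    intro y'
    rw [Formula.realize_iExs]
    have key1 : ∀ (w : I0 → N) (i0 : I0),
        (Sum.elim (Sum.elim (fun a : Σ i, I i => x a.1 a.2)
          (Sum.elim (fun b : Σ i, J i => u b.1 b.2) fun _ : Fin 1 => y')) w) ∘ (r i0) =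
        Sum.elim (x i0) (Sum.elim (u i0) (fun _ => w i0)) := by
      intro w i0
      funext i
      rcases i with i | i | i <;> rfl
    have key2 : ∀ (w : I0 → N),
        (Sum.elim (Sum.elim (fun a : Σ i, I i => x a.1 a.2)
          (Sum.elim (fun b : Σ i, J i => u b.1 b.2) fun _ : Fin 1 => y')) w) ∘ s =
        Sum.elim w (fun _ => y') := by
      intro w
      funext i
      rcases i with i | i <;> rfl
    constructor
    · rintro ⟨w, hw⟩
      rw [Formula.realize_inf, Formula.realize_iInf, Formula.realize_relabel, key2] at hw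
      have hwp : w = p := by
        funext i0
        have h1 := hw.1 i0
        rw [Formula.realize_relabel, key1] at h1
        exact (hθ i0 _).1 h1
      rw [hwp, realize_leastF] at hw
      rw [realize_leastF] at hy
      exact le_antisymm' hN (hw.2.2 _ hy.1) (hy.2 _ hw.2.1)
    · rintro rfl
      refine ⟨p, ?_⟩
      rw [Formula.realize_inf, Formula.realize_iInf, Formula.realize_relabel, key2]
      refine ⟨fun i0 => ?_, hy⟩
      rw [Formula.realize_relabel, key1]
      exact (hθ i0 _).2 rfl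
  refine ⟨K, ?_, ?_, ?_⟩
  · intro β hβ
    show β ∈ (K : Set N)
    rw [hK]
    refine ⟨Fin 0, Fin 1, inferInstance, inferInstance, fun i => i.elim0, fun _ => β,
      (Term.var (Sum.inr (Sum.inr 0))).equal (Term.var (Sum.inr (Sum.inl 0))),
      fun i => i.elim0, fun _ => hβ, ?_⟩
    intro y
    rw [Formula.realize_equal]
    simp only [Term.realize_var, Sum.elim_inr, Sum.elim_inl]
  · intro β hβ
    show β ∈ (K : Set N)
    rw [hK]
    refine ⟨Fin 1, Fin 0, inferInstance, inferInstance, fun _ => β, fun i => i.elim0,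
      (Term.var (Sum.inr (Sum.inr 0))).equal (Term.var (Sum.inl 0)),
      fun _ => hβ, fun i => i.elim0, ?_⟩
    intro y
    rw [Formula.realize_equal]
    simp only [Term.realize_var, Sum.elim_inr, Sum.elim_inl]
  · intro β hβ
    have : β ∈ (K : Set N) := hβ
    rw [hK] at this
    exact this

/-- the main step -/
theorem core (hM : TA M) (f : M ↪ₑ[Language.ring] N)
    (Ka Kb Kc : Language.ring.ElementarySubstructure N)
    (hfa : Set.range f ⊆ (Ka : Set N)) (hfc : Set.range f ⊆ (Kc : Set N))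
    (hab : ∀ x ∈ Ka, x ∈ Kb) (hb : ∀ x ∈ Kb, ∀ y : N, y ∉ Kb → ∃ z : N, x + z + 1 = y)
    (hcof : ∀ x ∈ Kb, ∃ m : M, Le x (f m)) (hbc : ∀ x ∈ Kb, x ∈ Kc → x ∈ Set.range f)
    (hac : ∀ K : Language.ring.ElementarySubstructure N, Ka ≤ K → Kc ≤ K → ∀ x, x ∈ K) :
    ∀ x ∈ Kb, x ∈ Ka := by
  obtain ⟨R, hR⟩ := exists_range f
  intro β hβ
  obtain ⟨K, h1, h2, h3⟩ := exists_join hN Ka Kc
  obtain ⟨I, J, _, _, x, u, θ, hx, hu, hθ⟩ := h3 β (hac K h1 h2 β)
  -- bounds
  obtain ⟨m, hm, hum⟩ := exists_bound (R : Set N) (zero_mem' R)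
    (fun x hx y hy => add_mem' R hx hy) (Sum.elim u (fun _ : Fin 1 => β)) (by
      have key : ∀ x ∈ Kb, ∃ m ∈ (R : Set N), Le x m := by
        intro x hx
        obtain ⟨m, hm⟩ := hcof x hx
        exact ⟨f m, by rw [hR]; exact ⟨m, rfl⟩, hm⟩
      rintro (j | j)
      · exact key _ (hab _ (hu j))
      · exact key _ hβ)
  rw [hR] at hm
  obtain ⟨m0, rfl⟩ := hm
  obtain ⟨B, hB⟩ := exists_reps hM θ m0
  rw [← f.map_formula, realize_repsF] at hB
  -- a representative of `x` in `Kc`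
  obtain ⟨x', hx', hrep⟩ := exists_mem Kc (repF θ) (Sum.elim (f ∘ ![m0, B]) x) (by
    rintro (i | i)
    · exact hfc ⟨_, rfl⟩
    · exact hx i) (hB x)
  rw [realize_repF] at hrep
  have hx'2 : ∀ i, x' i ∈ Set.range f := by
    intro i
    refine hbc _ ?_ (hx' i)
    by_contra hcon
    have hBb : f B ∈ Kb := hab _ (hfa ⟨B, rfl⟩)
    exact not_le_lt hN (hrep.1 i) (hb _ hBb _ hcon)
  have hθ' : ∀ y, Le y (f m0) →
      (θ.Realize (Sum.elim x' (Sum.elim u (fun _ => y))) ↔ y = β) := by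
    intro y hy
    rw [← hθ y]
    refine (hrep.2 _ ?_).symm
    rintro (j | j)
    · exact hum (Sum.inl j)
    · exact hy
  -- `β` is definable over `Ka`
  let r : I ⊕ (J ⊕ Fin 1) → ((I ⊕ J) ⊕ Fin 1) ⊕ Fin 1 :=
    Sum.elim (fun i => Sum.inl (Sum.inl (Sum.inl i)))
      (Sum.elim (fun j => Sum.inl (Sum.inl (Sum.inr j))) Sum.inr)
  have key : ∀ y : Fin 1 → N,
      ((θ.relabel r) ⊓ leF (Sum.inr 0) (Sum.inl (Sum.inr 0))).Realize
        (Sum.elim (Sum.elim (Sum.elim x' u) (fun _ : Fin 1 => f m0)) y) ↔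
      θ.Realize (Sum.elim x' (Sum.elim u (fun _ => y 0))) ∧ Le (y 0) (f m0) := by
    intro y
    rw [Formula.realize_inf, realize_leF, Formula.realize_relabel]
    have : (Sum.elim (Sum.elim (Sum.elim x' u) (fun _ : Fin 1 => f m0)) y) ∘ r =
        Sum.elim x' (Sum.elim u (fun _ => y 0)) := by
      funext i
      rcases i with i | i | i
      · rfl
      · rfl
      · rw [Subsingleton.elim i 0]; rfl
    rw [this]
    rfl
  obtain ⟨y, hy, hy'⟩ := exists_mem Ka ((θ.relabel r) ⊓ leF (Sum.inr 0) (Sum.inl (Sum.inr 0)))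
    (Sum.elim (Sum.elim x' u) (fun _ : Fin 1 => f m0)) (by
      rintro ((i | j) | k)
      · exact hfa (hx'2 i)
      · exact hu j
      · exact hfa ⟨m0, rfl⟩)
    ⟨fun _ => β, (key _).2 ⟨(hθ' β (hum (Sum.inr 0))).2 rfl, hum (Sum.inr 0)⟩⟩
  rw [key] at hy'
  rw [← (hθ' _ hy'.2).1 hy'.1]
  exact hy 0

end

end Pool.Agent.V8H45.RL
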