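import Pool.Agent.V8H45.RL.Arith

/-!
A countable nonstandard model of true arithmetic.
-/

set_option autoImplicit false
set_option linter.unusedSectionVars false

namespace Pool.Agent.V8H45.RL

open FirstOrder FirstOrder.Language FirstOrder.Ring

section

attribute [local instance] negNat natRing

attribute [local instance] addOfRingStructure mulOfRingStructure negOfRingStructure
  zeroOfRingStructure oneOfRingStructure compatibleRingOfRingStructure

variable (X : Type) [Language.ring.Structure X]

theorem ta_term {X : Type} [Language.ring.Structure X] (hX : TA X)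
    (t1 t2 : Language.ring.Term (Fin 3))
    (h : ∀ v : Fin 3 → ℕ, t1.realize v = t2.realize v) (v : Fin 3 → X) :
    t1.realize v = t2.realize v := by
  have h1 := hX (Fin 3) inferInstance (t1.equal t2) (by
    intro v
    rw [Formula.realize_equal]
    exact h v) v
  rwa [Formula.realize_equal] at h1

theorem realize_add' {α : Type} (x y : Language.ring.Term α) (v : α → X) :
    (x + y).realize v = Structure.funMap addFunc ![x.realize v, y.realize v] :=
  Term.realize_functions_apply₂

theorem realize_mul' {α : Type} (x y : Language.ring.Term α) (v : α → X) :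
    (x * y).realize v = Structure.funMap mulFunc ![x.realize v, y.realize v] :=
  Term.realize_functions_apply₂

theorem realize_neg' {α : Type} (x : Language.ring.Term α) (v : α → X) :
    (-x).realize v = Structure.funMap negFunc ![x.realize v] :=
  Term.realize_functions_apply₁

theorem realize_zero' {α : Type} (v : α → X) :
    (0 : Language.ring.Term α).realize v = Structure.funMap zeroFunc ![] := by
  simp only [zero_def, constantMap, Term.realize_constants]
  rfl

theorem realize_one' {α : Type} (v : α → X) :
    (1 : Language.ring.Term α).realize v = Structure.funMap oneFunc ![] := by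
  simp only [one_def, constantMap, Term.realize_constants]
  rfl

/-- the semiring structure of a model of true arithmetic -/
@[reducible] noncomputable def csr (hX : TA X) : CommSemiring X where
  add := fun x y => Structure.funMap addFunc ![x, y]
  mul := fun x y => Structure.funMap mulFunc ![x, y]
  zero := Structure.funMap zeroFunc ![]
  one := Structure.funMap oneFunc ![]
  nsmul := nsmulRec
  add_assoc := by
    intro a b c
    have h := ta_term hX ((Term.var 0 + Term.var 1) + Term.var 2)
      (Term.var 0 + (Term.var 1 + Term.var 2)) (by intro v; simp; ring) ![a, b, c]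
    simp only [realize_add', Term.realize_var] at h
    exact h
  zero_add := by
    intro a
    have h := ta_term hX (0 + Term.var 0) (Term.var 0) (by intro v; simp) ![a, a, a]
    simp only [realize_add', realize_zero', Term.realize_var] at h
    exact h
  add_zero := by
    intro a
    have h := ta_term hX (Term.var 0 + 0) (Term.var 0) (by intro v; simp) ![a, a, a]
    simp only [realize_add', realize_zero', Term.realize_var] at h
    exact h
  add_comm := by
    intro a b
    have h := ta_term hX (Term.var 0 + Term.var 1)
      (Term.var 1 + Term.var 0) (by intro v; simp; ring) ![a, b, a]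
    simp only [realize_add', Term.realize_var] at h
    exact h
  left_distrib := by
    intro a b c
    have h := ta_term hX (Term.var 0 * (Term.var 1 + Term.var 2))
      (Term.var 0 * Term.var 1 + Term.var 0 * Term.var 2) (by intro v; simp; ring) ![a, b, c]
    simp only [realize_add', realize_mul', Term.realize_var] at h
    exact h
  right_distrib := by
    intro a b c
    have h := ta_term hX ((Term.var 0 + Term.var 1) * Term.var 2)
      (Term.var 0 * Term.var 2 + Term.var 1 * Term.var 2) (by intro v; simp; ring) ![a, b, c]
    simp only [realize_add', realize_mul', Term.realize_var] at h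
    exact h
  zero_mul := by
    intro a
    have h := ta_term hX (0 * Term.var 0) 0 (by intro v; simp) ![a, a, a]
    simp only [realize_mul', realize_zero', Term.realize_var] at h
    exact h
  mul_zero := by
    intro a
    have h := ta_term hX (Term.var 0 * 0) 0 (by intro v; simp) ![a, a, a]
    simp only [realize_mul', realize_zero', Term.realize_var] at h
    exact h
  mul_assoc := by
    intro a b c
    have h := ta_term hX ((Term.var 0 * Term.var 1) * Term.var 2)
      (Term.var 0 * (Term.var 1 * Term.var 2)) (by intro v; simp; ring) ![a, b, c]
    simp only [realize_mul', Term.realize_var] at h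
    exact h
  one_mul := by
    intro a
    have h := ta_term hX (1 * Term.var 0) (Term.var 0) (by intro v; simp) ![a, a, a]
    simp only [realize_mul', realize_one', Term.realize_var] at h
    exact h
  mul_one := by
    intro a
    have h := ta_term hX (Term.var 0 * 1) (Term.var 0) (by intro v; simp) ![a, a, a]
    simp only [realize_mul', realize_one', Term.realize_var] at h
    exact h
  mul_comm := by
    intro a b
    have h := ta_term hX (Term.var 0 * Term.var 1)
      (Term.var 1 * Term.var 0) (by intro v; simp; ring) ![a, b, a]
    simp only [realize_mul', Term.realize_var] at h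
    exact h

theorem neg_eq {X : Type} [Language.ring.Structure X] (hX : TA X) (x : X) :
    Structure.funMap negFunc ![x] = x := by
  have h := ta_term hX (- Term.var 0) (Term.var 0) (by
    intro v
    simp
    rfl) ![x, x, x]
  simp only [realize_neg', Term.realize_var] at h
  exact h

end

/-- A model of true arithmetic has a unique structure of a semiring. -/
theorem exists_semiring (X : Type) [S : Language.ring.Structure X] (hX : TA X) :
    ∃ (_ : CommSemiring X) (_ : Neg X) (c : CompatibleRing X), c.toStructure = S ∧
      (∀ x : X, -x = x) :=
  ⟨csr X hX, negOfRingStructure X, compatibleRingOfRingStructure X, rfl, fun x => neg_eq hX x⟩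

section

attribute [local instance] negNat natRing

open Filter

/-- the ultrapower of the natural numbers -/
abbrev UP : Type := ((hyperfilter ℕ : Ultrafilter ℕ) : Filter ℕ).Product (fun _ : ℕ => ℕ)

/-- the term `n` -/
noncomputable def numT {α : Type} : ℕ → Language.ring.Term α
  | 0 => 0
  | n + 1 => numT n + 1

theorem realize_numT {α : Type} {X : Type} [CommSemiring X] [Neg X] [CompatibleRing X] (n : ℕ)
    (v : α → X) : (numT n : Language.ring.Term α).realize v = n := by
  induction n with
  | zero => simp [numT]
  | succ n ih => rw [numT, realize_add, ih, realize_one, Nat.cast_succ]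

/-- `n ≠ x` -/
noncomputable def neF (n : ℕ) : Language.ring.Formula (Fin 1) :=
  ∼((numT n : Language.ring.Term (Fin 1)).equal (Term.var 0))

theorem exists_model : ∃ (S : Language.ring.ElementarySubstructure UP) (a : UP),
    a ∈ S ∧ Countable S ∧ ∀ n : ℕ,
      (neF n).Realize (fun _ : Fin 1 => a) := by
  let a : UP := ((fun n => n : ∀ _ : ℕ, ℕ) : UP)
  have hinf : Infinite UP := by
    refine Infinite.of_injective (fun n : ℕ => ((fun _ => n : ∀ _ : ℕ, ℕ) : UP)) ?_
    intro n m h
    have h1 : ∀ᶠ _ in ((hyperfilter ℕ : Ultrafilter ℕ) : Filter ℕ), n = m := Quotient.exact h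
    rwa [eventually_const] at h1
  obtain ⟨S, hS, hcard⟩ := exists_elementarySubstructure_card_eq Language.ring ({a} : Set UP)
    Cardinal.aleph0.{0} le_rfl (by simp) (by
      rw [card_ring]
      simp) (by simp)
  refine ⟨S, a, hS rfl, ?_, ?_⟩
  · have h1 : Cardinal.mk S = Cardinal.aleph0 := by simpa using hcard
    exact Cardinal.mk_le_aleph0_iff.1 h1.le
  · intro n
    have h1 := (Ultraproduct.realize_formula_cast (u := hyperfilter ℕ) (M := fun _ : ℕ => ℕ)
      (neF n) (fun _ => (fun k => k))).2 (by
        simp only [neF]
        simp only [Formula.realize_not, Formula.realize_equal, realize_numT, Term.realize_var]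
        have h2 : {k : ℕ | k ≤ n}.Finite := Set.finite_le_nat n
        have h3 := h2.compl_mem_hyperfilter
        filter_upwards [h3] with k hk
        intro h4
        apply hk
        show k ≤ n
        have h5 : n = k := h4
        omega)
    exact h1

/-- a countable nonstandard model of true arithmetic -/
theorem exists_nonstandard : ∃ (S : Type) (_ : CommSemiring S) (_ : Neg S) (_ : CompatibleRing S),
    Countable S ∧ TA S ∧ (∀ x : S, -x = x) ∧ ∃ a : S, ∀ n : ℕ, (n : S) ≠ a := by
  obtain ⟨S, a, haS, hcount, ha⟩ := exists_model
  have hTA : TA S := by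
    apply ta_of_equiv
    intro φ hφ
    rw [S.realize_sentence]
    rw [Ultraproduct.sentence_realize]
    exact Filter.Eventually.of_forall fun _ => hφ
  have ha' : ∀ n : ℕ, (neF n).Realize (fun _ : Fin 1 => (⟨a, haS⟩ : S)) := by
    intro n
    rw [← S.subtype.map_formula]
    exact ha n
  obtain ⟨i1, i2, i3, hi3, hneg⟩ := exists_semiring S hTA
  have hTA' : @TA S i3.toStructure := by rw [hi3]; exact hTA
  refine ⟨S, i1, i2, i3, hcount, hTA', hneg, ⟨a, haS⟩, ?_⟩
  intro n hn
  have h1 := ha' n
  rw [← hi3] at h1
  unfold neF at h1
  rw [Formula.realize_not, Formula.realize_equal, realize_numT] at h1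
  exact h1 hn

variable {X : Type} [CommSemiring X] [Neg X] [CompatibleRing X]

theorem succ_ne (hX : TA X) (x : X) : x + 1 ≠ 0 := by
  have h := hX (Fin 1) inferInstance
    (∼(((Term.var 0 : Language.ring.Term (Fin 1)) + 1).equal 0)) (by
      intro v
      rw [Formula.realize_not, Formula.realize_equal]
      simp) (fun _ => x)
  rw [Formula.realize_not, Formula.realize_equal] at h
  simpa using h

theorem succ_inj' (hX : TA X) (x y : X) (hxy : x + 1 = y + 1) : x = y := by
  have h := hX (Fin 2) inferInstance
    ((((Term.var 0 : Language.ring.Term (Fin 2)) + 1).equal (Term.var 1 + 1)).imp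
      ((Term.var 0 : Language.ring.Term (Fin 2)).equal (Term.var 1))) (by
      intro v
      rw [Formula.realize_imp, Formula.realize_equal, Formula.realize_equal]
      simp) ![x, y]
  rw [Formula.realize_imp, Formula.realize_equal, Formula.realize_equal] at h
  simp only [realize_add, realize_one, Term.realize_var] at h
  exact h hxy

theorem zero_or_succ (hX : TA X) (x : X) : x = 0 ∨ ∃ y, y + 1 = x := by
  have h := hX (Fin 1) inferInstance
    (((Term.var 0 : Language.ring.Term (Fin 1)).equal 0) ⊔
      Formula.iExs (Fin 1) (((Term.var (Sum.inr 0) : Language.ring.Term (Fin 1 ⊕ Fin 1)) + 1).equal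
        (Term.var (Sum.inl 0)))) (by
      intro v
      rw [Formula.realize_sup, Formula.realize_equal, Formula.realize_iExs]
      simp only [Formula.realize_equal, realize_add, realize_one, realize_zero, Term.realize_var,
        Sum.elim_inl, Sum.elim_inr]
      rcases Nat.eq_zero_or_pos (v 0) with h | h
      · left; exact h
      · right; exact ⟨fun _ => v 0 - 1, by
          show v 0 - 1 + 1 = v 0
          omega⟩) (fun _ => x)
  rw [Formula.realize_sup, Formula.realize_equal, Formula.realize_iExs] at h
  simp only [Formula.realize_equal, realize_add, realize_one, realize_zero, Term.realize_var,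
        Sum.elim_inl, Sum.elim_inr] at h
  rcases h with h | ⟨y, hy⟩
  · left; exact h
  · right; exact ⟨y 0, hy⟩

theorem induction' (hX : TA X) (s : Set (Fin 1 → X))
    (hs : (Set.univ : Set X).Definable Language.ring s)
    (h0 : (fun _ : Fin 1 => (0 : X)) ∈ s)
    (h1 : ∀ x : X, (fun _ : Fin 1 => x) ∈ s → (fun _ : Fin 1 => x + 1) ∈ s) (x : X) :
    (fun _ : Fin 1 => x) ∈ s := by
  by_contra hcon
  rw [Set.definable_iff_exists_formula_sum] at hs
  obtain ⟨φ, hφ⟩ := hs
  obtain ⟨I, _, p, φ', h'⟩ := fin_params φ
  have key : ∀ z : X, (fun _ : Fin 1 => z) ∈ s ↔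
      φ'.Realize (Sum.elim ((Subtype.val : {z // z ∈ (Set.univ : Set X)} → X) ∘ p) (fun _ => z)) := by
    intro z
    rw [h' X, hφ]
    rfl
  let ψ : Language.ring.Formula (I ⊕ Fin 1) := ∼φ'
  have key2 : ∀ z : X, (fun _ : Fin 1 => z) ∉ s ↔
      ψ.Realize
        (Sum.elim ((Subtype.val : {z // z ∈ (Set.univ : Set X)} → X) ∘ p) (fun _ => z)) := by
    intro z
    rw [key]
    exact Formula.realize_not.symm
  obtain ⟨y, hy⟩ := exists_least hX ψ _ ⟨x, (key2 x).1 hcon⟩
  rw [realize_leastF, ← key2] at hy
  rcases zero_or_succ hX y with rfl | ⟨z, rfl⟩
  · exact hy.1 h0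
  · have hz : (fun _ : Fin 1 => z) ∈ s := by
      by_contra hz
      have h2 := hy.2 z ((key2 z).1 hz)
      exact not_le_lt hX h2 ⟨0, by rw [add_zero]⟩
    exact hy.1 (h1 z hz)

end

end Pool.Agent.V8H45.RL
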