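import Mathlib

/-!
The pentagon `0 < a < b < 1`, `0 < c < 1`.
-/

set_option autoImplicit false
set_option linter.constructorNameAsVariable false

namespace Pool.Agent.V8H45.RL

/-- the elements of the pentagon -/
inductive P5 : Type
  | o | a | b | c | i
  deriving DecidableEq

namespace P5

instance : Fintype P5 := ⟨⟨[o, a, b, c, i], by decide⟩, by intro x; cases x <;> decide⟩

/-- the order -/
def leB : P5 → P5 → Bool
  | o, _ => true
  | _, i => true
  | a, a => true
  | a, b => true
  | b, b => true
  | c, c => true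
  | _, _ => false

/-- the join -/
def sup : P5 → P5 → P5
  | o, x => x
  | x, o => x
  | a, a => a
  | a, b => b
  | b, a => b
  | b, b => b
  | c, c => c
  | _, _ => i

/-- the meet -/
def inf : P5 → P5 → P5
  | i, x => x
  | x, i => x
  | a, a => a
  | a, b => a
  | b, a => a
  | b, b => b
  | c, c => c
  | _, _ => o

instance : Lattice P5 where
  le x y := leB x y = true
  sup := sup
  inf := inf
  le_refl := by decide
  le_trans := by decide
  le_antisymm := by decide
  le_sup_left := by decide
  le_sup_right := by decide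
  sup_le := by decide
  inf_le_left := by decide
  inf_le_right := by decide
  le_inf := by decide

instance (x y : P5) : Decidable (x ≤ y) := inferInstanceAs (Decidable (leB x y = true))

instance : BoundedOrder P5 where
  top := i
  bot := o
  le_top := by decide
  bot_le := by decide

/-- the chain `{b, 1}` -/
def C : Set P5 := {x | x = b ∨ x = i}

instance (x : P5) : Decidable (x ∈ C) := inferInstanceAs (Decidable (x = b ∨ x = i))

theorem chain : IsChain (· ≤ ·) C := by
  have h : ∀ x y : P5, x ∈ C → y ∈ C → x ≤ y ∨ y ≤ x := by decide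
  intro x hx y hy _
  exact h x y hx hy

theorem top_mem : (⊤ : P5) ∈ C := Or.inr rfl

/-- `d` is the least element of `C` above `x` -/
def IsBar (x d : P5) : Prop := d ∈ C ∧ x ≤ d ∧ ∀ c' ∈ C, x ≤ c' → d ≤ c'

instance (x d : P5) : Decidable (IsBar x d) :=
  inferInstanceAs (Decidable (d ∈ C ∧ x ≤ d ∧ ∀ c' ∈ C, x ≤ c' → d ≤ c'))

theorem condA : ∀ x y d : P5, IsBar x d → IsBar y d → IsBar (x ⊓ y) d := by decide

theorem condB : ∀ w x y z : P5, x ⊔ w = z → y ⊔ w = z → x ⊓ w = y ⊓ w →
      (∃ c : P5, (c ∈ C ∧ w ≤ c ∧ ∀ c' ∈ C, w ≤ c' → c ≤ c') ∧ w = c ⊓ z) → x = y := by decide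

theorem b_mem : b ∈ C := Or.inl rfl

theorem b_ne_top : b ≠ ⊤ := by decide

theorem inf_bc : b ⊓ c = ⊥ := by decide

theorem sup_ac : a ⊔ c = ⊤ := by decide

theorem a_le_b : a ≤ b := by decide

theorem not_b_le_a : ¬ b ≤ a := by decide

end P5

end Pool.Agent.V8H45.RL
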