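import Pool.Agent.V8H45.RL.Basic

/-!
Models of true arithmetic in the language of rings (the negation is interpreted as the identity).
-/

set_option autoImplicit false
set_option linter.unusedSectionVars false

namespace Pool.Agent.V8H45.RL

open FirstOrder FirstOrder.Language FirstOrder.Ring

/-- the negation on the natural numbers is the identity -/
@[reducible] def negNat : Neg ℕ := ⟨id⟩

attribute [local instance] negNat

/-- the natural numbers as a structure for the language of rings -/
@[reducible] noncomputable def natRing : CompatibleRing ℕ := compatibleRingOfRing ℕ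

attribute [local instance] natRing

/-- models of true arithmetic -/
def TA (X : Type) [Language.ring.Structure X] : Prop :=
  ∀ (α : Type) (_ : Finite α) (φ : Language.ring.Formula α),
    (∀ v : α → ℕ, φ.Realize v) → ∀ v : α → X, φ.Realize v

theorem ta_of_equiv {X : Type} [Language.ring.Structure X]
    (h : ∀ φ : Language.ring.Sentence, ℕ ⊨ φ → X ⊨ φ) : TA X := by
  intro α _ φ hφ v
  let ψ : Language.ring.Sentence := (φ.relabel (Sum.inr : α → Empty ⊕ α)).iAlls α
  have h1 : ℕ ⊨ ψ := by
    unfold Sentence.Realize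
    rw [Formula.realize_iAlls]
    intro w
    rw [Formula.realize_relabel]
    exact hφ _
  have h3 : X ⊨ ψ := h ψ h1
  unfold Sentence.Realize at h3
  rw [Formula.realize_iAlls] at h3
  have h4 := h3 v
  rw [Formula.realize_relabel] at h4
  exact h4

section

variable {α : Type}

/-- `v i ≤ v j` -/
noncomputable def leF (i j : α) : Language.ring.Formula α :=
  Formula.iExs (Fin 1) (((Term.var (Sum.inl i) : Language.ring.Term (α ⊕ Fin 1)) +
    Term.var (Sum.inr 0)).equal (Term.var (Sum.inl j)))

variable {X : Type} [CommSemiring X] [Neg X] [CompatibleRing X]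

theorem realize_leF (i j : α) (v : α → X) : (leF i j).Realize v ↔ ∃ z, v i + z = v j := by
  unfold leF
  rw [Formula.realize_iExs]
  simp only [Formula.realize_equal, realize_add, Term.realize_var, Sum.elim_inl, Sum.elim_inr]
  constructor
  · rintro ⟨z, hz⟩; exact ⟨z 0, hz⟩
  · rintro ⟨z, hz⟩; exact ⟨fun _ => z, hz⟩

theorem realize_leF_nat (i j : α) (v : α → ℕ) : (leF i j).Realize v ↔ v i ≤ v j := by
  rw [realize_leF, le_iff_exists_add]
  simp only [eq_comm]

/-- `v i < v j` -/
noncomputable def ltF (i j : α) : Language.ring.Formula α :=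
  Formula.iExs (Fin 1) (((Term.var (Sum.inl i) : Language.ring.Term (α ⊕ Fin 1)) +
    Term.var (Sum.inr 0) + 1).equal (Term.var (Sum.inl j)))

theorem realize_ltF (i j : α) (v : α → X) : (ltF i j).Realize v ↔ ∃ z, v i + z + 1 = v j := by
  unfold ltF
  rw [Formula.realize_iExs]
  simp only [Formula.realize_equal, realize_add, realize_one, Term.realize_var, Sum.elim_inl,
    Sum.elim_inr]
  constructor
  · rintro ⟨z, hz⟩; exact ⟨z 0, hz⟩
  · rintro ⟨z, hz⟩; exact ⟨fun _ => z, hz⟩

theorem realize_ltF_nat (i j : α) (v : α → ℕ) : (ltF i j).Realize v ↔ v i < v j := by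
  rw [realize_ltF]
  constructor
  · rintro ⟨z, hz⟩; omega
  · intro h; exact ⟨v j - v i - 1, by omega⟩

/-- order -/
def Le (x y : X) : Prop := ∃ z, x + z = y

/-- strict order -/
def Lt (x y : X) : Prop := ∃ z, x + z + 1 = y

theorem Le.refl (x : X) : Le x x := ⟨0, add_zero x⟩

theorem Le.trans {x y z : X} (h : Le x y) (h' : Le y z) : Le x z := by
  obtain ⟨a, rfl⟩ := h
  obtain ⟨b, rfl⟩ := h'
  exact ⟨a + b, by ring⟩

theorem le_add (x y : X) : Le x (x + y) := ⟨y, rfl⟩

theorem le_add' (x y : X) : Le x (y + x) := ⟨y, by ring⟩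

variable (hX : TA X)
include hX

theorem total (x y : X) : Le x y ∨ Lt y x := by
  have h := hX (Fin 2) inferInstance ((leF 0 1) ⊔ (ltF 1 0)) (by
    intro v
    rw [Formula.realize_sup, realize_leF_nat, realize_ltF_nat]
    omega) ![x, y]
  rw [Formula.realize_sup, realize_leF, realize_ltF] at h
  exact h

theorem not_le_lt {x y : X} (h1 : Le x y) (h2 : Lt y x) : False := by
  have h := hX (Fin 2) inferInstance (∼((leF 0 1) ⊓ (ltF 1 0))) (by
    intro v
    rw [Formula.realize_not, Formula.realize_inf, realize_leF_nat, realize_ltF_nat]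
    omega) ![x, y]
  rw [Formula.realize_not, Formula.realize_inf, realize_leF, realize_ltF] at h
  exact h ⟨h1, h2⟩

theorem le_antisymm' {x y : X} (h1 : Le x y) (h2 : Le y x) : x = y := by
  have h := hX (Fin 2) inferInstance (((leF 0 1) ⊓ (leF 1 0)).imp
    ((Term.var 0 : Language.ring.Term (Fin 2)).equal (Term.var 1))) (by
    intro v
    rw [Formula.realize_imp, Formula.realize_inf, realize_leF_nat, realize_leF_nat,
      Formula.realize_equal]
    simp only [Term.realize_var]
    omega) ![x, y]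
  rw [Formula.realize_imp, Formula.realize_inf, realize_leF, realize_leF,
    Formula.realize_equal] at h
  exact h ⟨h1, h2⟩

omit hX in
/-- a common upper bound -/
theorem exists_bound {I : Type} [Finite I] (A : Set X) (h0 : (0 : X) ∈ A)
    (hadd : ∀ x ∈ A, ∀ y ∈ A, x + y ∈ A) (u : I → X) (hu : ∀ i, ∃ m ∈ A, Le (u i) m) :
    ∃ m ∈ A, ∀ i, Le (u i) m := by
  classical
  have := Fintype.ofFinite I
  choose m hm hm' using hu
  have key : ∀ s : Finset I, ∑ i ∈ s, m i ∈ A := by
    intro s
    induction s using Finset.induction_on with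
    | empty => simpa using h0
    | insert a s ha ih => rw [Finset.sum_insert ha]; exact hadd _ (hm a) _ ih
  refine ⟨∑ i, m i, key _, fun i => (hm' i).trans ?_⟩
  rw [← Finset.add_sum_erase _ _ (Finset.mem_univ i)]
  exact le_add _ _

end

/-! ### The least element principle -/

section

variable {I : Type} [Finite I]

/-- `y` is the least element with `φ(x, y)` -/
noncomputable def leastF (φ : Language.ring.Formula (I ⊕ Fin 1)) :
    Language.ring.Formula (I ⊕ Fin 1) :=
  φ ⊓ Formula.iAlls (Fin 1) ((φ.relabel (Sum.map (Sum.inl : I → I ⊕ Fin 1) (id : Fin 1 → Fin 1))).imp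
    (leF (Sum.inl (Sum.inr 0)) (Sum.inr 0)))

variable {X : Type} [CommSemiring X] [Neg X] [CompatibleRing X]

omit [Finite I] in
theorem realize_leastF (φ : Language.ring.Formula (I ⊕ Fin 1)) (x : I → X) (y : X) :
    (leastF φ).Realize (Sum.elim x (fun _ => y)) ↔
      φ.Realize (Sum.elim x (fun _ => y)) ∧
        ∀ y', φ.Realize (Sum.elim x (fun _ => y')) → Le y y' := by
  unfold leastF
  rw [Formula.realize_inf, Formula.realize_iAlls]
  refine and_congr_right fun _ => ?_
  have key : ∀ w : Fin 1 → X, (Sum.elim (Sum.elim x fun _ => y) w) ∘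
      (Sum.map (Sum.inl : I → I ⊕ Fin 1) (id : Fin 1 → Fin 1)) = Sum.elim x (fun _ => w 0) := by
    intro w
    funext i
    rcases i with i | i
    · rfl
    · have : i = 0 := Subsingleton.elim _ _
      subst this; rfl
  constructor
  · intro h y' hy'
    have h1 := h (fun _ => y')
    rw [Formula.realize_imp, Formula.realize_relabel, key, realize_leF] at h1
    exact h1 hy'
  · intro h w
    rw [Formula.realize_imp, Formula.realize_relabel, key, realize_leF]
    intro h1
    exact h _ h1

theorem exists_least (hX : TA X) (φ : Language.ring.Formula (I ⊕ Fin 1)) (x : I → X)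
    (h : ∃ y, φ.Realize (Sum.elim x (fun _ => y))) :
    ∃ y, (leastF φ).Realize (Sum.elim x (fun _ => y)) := by
  have h1 := hX I inferInstance ((φ.iExs (Fin 1)).imp ((leastF φ).iExs (Fin 1))) (by
    intro v
    rw [Formula.realize_imp, Formula.realize_iExs, Formula.realize_iExs]
    rintro ⟨y, hy⟩
    have hy' : ∃ n : ℕ, φ.Realize (Sum.elim v (fun _ => n)) := by
      refine ⟨y 0, ?_⟩
      convert hy using 2
      funext i
      rw [Subsingleton.elim i 0]
    classical
    refine ⟨fun _ => Nat.find hy', ?_⟩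
    rw [realize_leastF]
    refine ⟨Nat.find_spec hy', fun y' h' => ?_⟩
    have := Nat.find_min' hy' h'
    exact ⟨y' - Nat.find hy', by omega⟩) x
  rw [Formula.realize_imp, Formula.realize_iExs, Formula.realize_iExs] at h1
  obtain ⟨y, hy⟩ := h
  obtain ⟨z, hz⟩ := h1 ⟨fun _ => y, hy⟩
  refine ⟨z 0, ?_⟩
  convert hz using 2
  funext i
  rw [Subsingleton.elim i 0]

/-! ### Collection -/

/-- for all `x ≤ m`: if `φ(x, y)` has a solution, then it has one `≤ B` (`m`, `B` are the free
variables `0`, `1`) -/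
noncomputable def collF (φ : Language.ring.Formula (I ⊕ Fin 1)) : Language.ring.Formula (Fin 2) :=
  Formula.iAlls I ((Formula.iInf fun i : I => leF (Sum.inr i) (Sum.inl 0)).imp
    ((Formula.iExs (Fin 1) (φ.relabel (Sum.map (Sum.inr : I → Fin 2 ⊕ I) (id : Fin 1 → Fin 1)))).imp
      (Formula.iExs (Fin 1) ((φ.relabel (Sum.map (Sum.inr : I → Fin 2 ⊕ I) (id : Fin 1 → Fin 1))) ⊓
        leF (Sum.inr 0) (Sum.inl (Sum.inl 1))))))

theorem realize_collF (φ : Language.ring.Formula (I ⊕ Fin 1)) (m : Fin 2 → X) :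
    (collF φ).Realize m ↔ ∀ x : I → X, (∀ i, Le (x i) (m 0)) →
      (∃ y, φ.Realize (Sum.elim x (fun _ => y))) →
      ∃ y, φ.Realize (Sum.elim x (fun _ => y)) ∧ Le y (m 1) := by
  unfold collF
  rw [Formula.realize_iAlls]
  have key : ∀ (x : I → X) (w : Fin 1 → X), (Sum.elim (Sum.elim m x) w) ∘
      (Sum.map (Sum.inr : I → Fin 2 ⊕ I) (id : Fin 1 → Fin 1)) = Sum.elim x (fun _ => w 0) := by
    intro x w
    funext i
    rcases i with i | i
    · rfl
    · rw [Subsingleton.elim i 0]; rfl
  refine forall_congr' fun x => ?_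
  rw [Formula.realize_imp, Formula.realize_imp, Formula.realize_iInf, Formula.realize_iExs,
    Formula.realize_iExs]
  simp only [realize_leF, Formula.realize_inf, Formula.realize_relabel, key, Sum.elim_inl,
    Sum.elim_inr]
  refine imp_congr Iff.rfl (imp_congr ?_ ?_)
  · constructor
    · rintro ⟨w, hw⟩; exact ⟨w 0, hw⟩
    · rintro ⟨y, hy⟩; exact ⟨fun _ => y, hy⟩
  · constructor
    · rintro ⟨w, hw⟩; exact ⟨w 0, hw⟩
    · rintro ⟨y, hy⟩; exact ⟨fun _ => y, hy⟩

theorem exists_coll (hX : TA X) (φ : Language.ring.Formula (I ⊕ Fin 1)) (m : X) :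
    ∃ B : X, (collF φ).Realize ![m, B] := by
  have h1 := hX (Fin 1) inferInstance (Formula.iExs (Fin 1)
      ((collF φ).relabel (![Sum.inl 0, Sum.inr 0] : Fin 2 → Fin 1 ⊕ Fin 1))) (by
    intro v
    rw [Formula.realize_iExs]
    have hfin : {x : I → ℕ | ∀ i, x i ≤ v 0}.Finite :=
      Set.Finite.pi' (t := fun _ : I => Set.Iic (v 0)) fun _ => Set.finite_Iic _
    classical
    let g : (I → ℕ) → ℕ := fun x =>
      if h : ∃ y, φ.Realize (Sum.elim x (fun _ => y)) then Nat.find h else 0
    obtain ⟨B, hB⟩ := (hfin.image g).bddAbove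
    refine ⟨fun _ => B, ?_⟩
    rw [Formula.realize_relabel, realize_collF]
    intro x hx hy
    refine ⟨Nat.find hy, Nat.find_spec hy, ?_⟩
    have h2 : g x ≤ B := hB ⟨x, fun i => by
      obtain ⟨z, hz⟩ := hx i
      have hz' : x i + z = v 0 := hz
      show x i ≤ v 0
      omega, rfl⟩
    simp only [g, dif_pos hy] at h2
    exact ⟨B - Nat.find hy, by
      show Nat.find hy + (B - Nat.find hy) = B
      omega⟩) (fun _ => m)
  rw [Formula.realize_iExs] at h1
  obtain ⟨B, hB⟩ := h1
  rw [Formula.realize_relabel] at hB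
  refine ⟨B 0, ?_⟩
  convert hB using 1
  funext i
  fin_cases i <;> rfl

end

/-! ### Representatives -/

section

variable {I J : Type} [Finite I] [Finite J]

/-- `x' ≤ B` and for all `u ≤ m`, `θ(x, u) ↔ θ(x', u)`; the free variables are `(m, B)`, `x`,
`x'` -/
noncomputable def repF (θ : Language.ring.Formula (I ⊕ J)) :
    Language.ring.Formula ((Fin 2 ⊕ I) ⊕ I) :=
  (Formula.iInf fun i : I => leF (Sum.inr i) (Sum.inl (Sum.inl 1))) ⊓
    Formula.iAlls J ((Formula.iInf fun j : J => leF (Sum.inr j) (Sum.inl (Sum.inl (Sum.inl 0)))).imp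
      ((θ.relabel (Sum.map (Sum.inl ∘ Sum.inr : I → (Fin 2 ⊕ I) ⊕ I) (id : J → J))).iff
        (θ.relabel (Sum.map (Sum.inr : I → (Fin 2 ⊕ I) ⊕ I) (id : J → J)))))

variable {X : Type} [CommSemiring X] [Neg X] [CompatibleRing X]

theorem realize_repF (θ : Language.ring.Formula (I ⊕ J)) (m : Fin 2 → X) (x x' : I → X) :
    (repF θ).Realize (Sum.elim (Sum.elim m x) x') ↔ (∀ i, Le (x' i) (m 1)) ∧
      ∀ u : J → X, (∀ j, Le (u j) (m 0)) →
        (θ.Realize (Sum.elim x u) ↔ θ.Realize (Sum.elim x' u)) := by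
  unfold repF
  rw [Formula.realize_inf, Formula.realize_iInf, Formula.realize_iAlls]
  simp only [realize_leF, Sum.elim_inl, Sum.elim_inr]
  refine and_congr Iff.rfl (forall_congr' fun u => ?_)
  rw [Formula.realize_imp, Formula.realize_iInf, Formula.realize_iff, Formula.realize_relabel,
    Formula.realize_relabel]
  simp only [realize_leF, Sum.elim_inl, Sum.elim_inr]
  have key : (Sum.elim (Sum.elim (Sum.elim m x) x') u) ∘
      (Sum.map (Sum.inl ∘ Sum.inr : I → (Fin 2 ⊕ I) ⊕ I) (id : J → J)) = Sum.elim x u := by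
    funext i
    rcases i with i | i <;> rfl
  have key' : (Sum.elim (Sum.elim (Sum.elim m x) x') u) ∘
      (Sum.map (Sum.inr : I → (Fin 2 ⊕ I) ⊕ I) (id : J → J)) = Sum.elim x' u := by
    funext i
    rcases i with i | i <;> rfl
  rw [key, key']
  rfl

/-- for all `x` there is `x'` as above; the free variables are `(m, B)` -/
noncomputable def repsF (θ : Language.ring.Formula (I ⊕ J)) : Language.ring.Formula (Fin 2) :=
  Formula.iAlls I (Formula.iExs I (repF θ))

theorem realize_repsF (θ : Language.ring.Formula (I ⊕ J)) (m : Fin 2 → X) :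
    (repsF θ).Realize m ↔ ∀ x : I → X, ∃ x' : I → X,
      (repF θ).Realize (Sum.elim (Sum.elim m x) x') := by
  unfold repsF
  rw [Formula.realize_iAlls]
  refine forall_congr' fun x => ?_
  rw [Formula.realize_iExs]

theorem exists_reps (hX : TA X) (θ : Language.ring.Formula (I ⊕ J)) (m : X) :
    ∃ B : X, (repsF θ).Realize ![m, B] := by
  have h1 := hX (Fin 1) inferInstance (Formula.iExs (Fin 1)
      ((repsF θ).relabel (![Sum.inl 0, Sum.inr 0] : Fin 2 → Fin 1 ⊕ Fin 1))) (by
    intro v
    rw [Formula.realize_iExs]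
    have hfin : {u : J → ℕ | ∀ j, u j ≤ v 0}.Finite :=
      Set.Finite.pi' (t := fun _ : J => Set.Iic (v 0)) fun _ => Set.finite_Iic _
    -- the trace of `x`
    let tr : (I → ℕ) → Set (J → ℕ) := fun x =>
      {u | (∀ j, u j ≤ v 0) ∧ θ.Realize (Sum.elim x u)}
    have htr : (Set.range tr).Finite := by
      refine hfin.finite_subsets.subset ?_
      rintro _ ⟨x, rfl⟩
      exact fun u hu => hu.1
    -- representatives
    let rep : Set (J → ℕ) → (I → ℕ) := fun s => Function.invFun tr s
    have hrep : ∀ x, tr (rep (tr x)) = tr x := fun x => Function.invFun_eq ⟨x, rfl⟩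
    have : Fintype I := Fintype.ofFinite I
    let g : Set (J → ℕ) → ℕ := fun s => ∑ i, rep s i
    obtain ⟨B, hB⟩ := (htr.image g).bddAbove
    refine ⟨fun _ => B, ?_⟩
    rw [Formula.realize_relabel, realize_repsF]
    intro x
    refine ⟨rep (tr x), ?_⟩
    rw [realize_repF]
    constructor
    · intro i
      have h2 : g (tr x) ≤ B := hB ⟨tr x, ⟨x, rfl⟩, rfl⟩
      have h3 : rep (tr x) i ≤ g (tr x) :=
        Finset.single_le_sum (f := fun i => rep (tr x) i) (fun _ _ => Nat.zero_le _)
          (Finset.mem_univ i)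
      refine ⟨B - rep (tr x) i, ?_⟩
      show rep (tr x) i + (B - rep (tr x) i) = B
      omega
    · intro u hu
      have hu' : ∀ j, u j ≤ v 0 := by
        intro j
        obtain ⟨z, hz⟩ := hu j
        have hz' : u j + z = v 0 := hz
        omega
      have h4 : u ∈ tr x ↔ u ∈ tr (rep (tr x)) := by rw [hrep]
      have h5 : u ∈ tr x ↔ θ.Realize (Sum.elim x u) := ⟨fun h => h.2, fun h => ⟨hu', h⟩⟩
      have h6 : u ∈ tr (rep (tr x)) ↔ θ.Realize (Sum.elim (rep (tr x)) u) :=
        ⟨fun h => h.2, fun h => ⟨hu', h⟩⟩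
      rw [← h5, ← h6, h4]) (fun _ => m)
  rw [Formula.realize_iExs] at h1
  obtain ⟨B, hB⟩ := h1
  rw [Formula.realize_relabel] at hB
  refine ⟨B 0, ?_⟩
  convert hB using 1
  funext i
  fin_cases i <;> rfl

end

end Pool.Agent.V8H45.RL
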