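import Mathlib

/-!
Elementary substructures: finitely many parameters, the Tarski-Vaught test for sets.
-/

set_option autoImplicit false

namespace Pool.Agent.V8H45.RL

open FirstOrder FirstOrder.Language

universe u v

/-- a formula only uses finitely many of its parameters -/
theorem fin_params {L : FirstOrder.Language.{u, v}} {α β : Type} (φ : L.Formula (α ⊕ β)) :
    ∃ (I : Type) (_ : Finite I) (p : I → α) (φ' : L.Formula (I ⊕ β)),
      ∀ (M : Type) [L.Structure M] (v : α → M) (w : β → M),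
        φ'.Realize (Sum.elim (v ∘ p) w) ↔ φ.Realize (Sum.elim v w) := by
  classical
  let I : Type := {x : α // (Sum.inl x : α ⊕ β) ∈ φ.freeVarFinset}
  have hI : Finite I := by
    refine Finite.of_injective
      (fun x : I => (⟨Sum.inl x.1, x.2⟩ : {y // y ∈ φ.freeVarFinset})) ?_
    intro x y h
    exact Subtype.ext (Sum.inl_injective (congrArg Subtype.val h))
  let g : {y // y ∈ φ.freeVarFinset} → I ⊕ β := fun y =>
    match y with
    | ⟨Sum.inl x, hx⟩ => Sum.inl ⟨x, hx⟩
    | ⟨Sum.inr x, _⟩ => Sum.inr x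
  refine ⟨I, hI, fun x => x.1, φ.restrictFreeVar g, ?_⟩
  intro M _ v w
  unfold Formula.Realize
  rw [BoundedFormula.realize_restrictFreeVar (Sum.elim v w)]
  rintro ⟨x | x, hx⟩
  · rfl
  · rfl

variable {L : FirstOrder.Language.{u, v}} {N : Type} [L.Structure N]

/-- solutions of formulas with parameters in an elementary substructure -/
theorem exists_mem (K : L.ElementarySubstructure N) {I J : Type} [Finite J]
    (φ : L.Formula (I ⊕ J)) (p : I → N) (hp : ∀ i, p i ∈ K)
    (h : ∃ y : J → N, φ.Realize (Sum.elim p y)) :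
    ∃ y : J → N, (∀ j, y j ∈ K) ∧ φ.Realize (Sum.elim p y) := by
  let p' : I → K := fun i => ⟨p i, hp i⟩
  have h1 : (φ.iExs J).Realize p := by
    rw [Formula.realize_iExs]; exact h
  have h2 : (φ.iExs J).Realize p' := by
    rw [← K.subtype.map_formula]
    exact h1
  rw [Formula.realize_iExs] at h2
  obtain ⟨y, hy⟩ := h2
  refine ⟨fun j => (y j : N), fun j => (y j).2, ?_⟩
  rw [← K.subtype.map_formula] at hy
  convert hy using 1
  funext i
  rcases i with i | i <;> rfl

/-- the Tarski-Vaught test for sets -/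
theorem exists_elementary (A : Set N)
    (h : ∀ (I : Type) (_ : Finite I) (φ : L.Formula (I ⊕ Fin 1)) (p : I → N), (∀ i, p i ∈ A) →
      (∃ y : N, φ.Realize (Sum.elim p (fun _ => y))) →
      ∃ y ∈ A, φ.Realize (Sum.elim p (fun _ => y))) :
    ∃ K : L.ElementarySubstructure N, (K : Set N) = A := by
  have hA : L.MeetsDefinable A := by
    rintro D ⟨y, hy⟩ hD
    unfold Set.Definable₁ at hD
    rw [Set.definable_iff_exists_formula_sum] at hD
    obtain ⟨φ, hφ⟩ := hD
    obtain ⟨I, hI, p, φ', h'⟩ := fin_params φ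
    have key : ∀ z : N, z ∈ D ↔ φ'.Realize (Sum.elim (((↑) : A → N) ∘ p) (fun _ => z)) := by
      intro z
      rw [h' N]
      have : (fun _ : Fin 1 => z) ∈ {x : Fin 1 → N | x 0 ∈ D} ↔
          (fun _ : Fin 1 => z) ∈ {v | φ.Realize (Sum.elim (↑) v)} := by
        rw [← hφ]
      simpa using this
    obtain ⟨z, hz, hz'⟩ := h I hI φ' (((↑) : A → N) ∘ p) (fun i => (p i).2) ⟨y, (key y).1 hy⟩
    exact ⟨z, (key z).2 hz', hz⟩
  exact ⟨hA.toElementarySubstructure, hA.closure_eq_self⟩

end Pool.Agent.V8H45.RL
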